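import Mathlib
import Pool.Agent.K3h86.LP.Stm

/-! Brick BLOCKS of `Pool.Agent.K3h86.LP.Stm`: splitting into blocks. -/

set_option autoImplicit false

namespace Pool.Agent.K3h67.LP

open Finset Pool.Agent.K3h86.LP

/-- the map `(k, l) ↦ (N_k / l, l)`. -/
def gg (p : ℕ) (x : Σ _ : ℕ, ℕ) : ℕ × ℕ := ((2 * x.1 * p + 1) / x.2, x.2)

/-- the index set of the left side. -/
noncomputable def SS (p : ℕ) (δ : ℝ) : Finset (Σ _ : ℕ, ℕ) :=
  (Bd p δ).sigma (fun k => (2 * k * p + 1).primeFactors.filter (fun l => 2 * p < l))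

theorem mem_SS (p : ℕ) (δ : ℝ) (x : Σ _ : ℕ, ℕ) (hx : x ∈ SS p δ) :
    1 ≤ x.1 ∧ x.1 ≤ 2 * p - 1 ∧ x.2.Prime ∧ x.2 ∣ 2 * x.1 * p + 1 ∧ 2 * p < x.2 ∧
      (x.2 : ℝ) ≤ (p : ℝ) ^ (1 + δ) := by
  unfold SS at hx
  rw [Finset.mem_sigma, Finset.mem_filter, Nat.mem_primeFactors] at hx
  obtain ⟨h1, ⟨h2, h3, _⟩, h4⟩ := hx
  simp only [Bd, KK, Finset.mem_filter, Finset.mem_erase, Finset.mem_Icc] at h1
  refine ⟨h1.1.2.1, h1.1.2.2, h2, h3, h4, ?_⟩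
  by_contra hcon
  push Not at hcon
  exact h1.2 ⟨x.2, h2, h3, hcon⟩

theorem gg_inj (p : ℕ) (hp : 0 < p) (δ : ℝ) : Set.InjOn (gg p) (SS p δ : Set (Σ _ : ℕ, ℕ)) := by
  rintro ⟨k, l⟩ hx ⟨k', l'⟩ hy h
  have h1 := mem_SS p δ _ hx
  have h2 := mem_SS p δ _ hy
  unfold gg at h
  simp only [Prod.mk.injEq] at h h1 h2
  obtain ⟨h3, h4⟩ := h
  subst h4
  have h5 : (2 * k * p + 1) / l * l = 2 * k * p + 1 := Nat.div_mul_cancel h1.2.2.2.1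
  have h6 : (2 * k' * p + 1) / l * l = 2 * k' * p + 1 := Nat.div_mul_cancel h2.2.2.2.1
  rw [h3, h6] at h5
  have h7 : k = k' := by
    have h8 : k' * (2 * p) = k * (2 * p) := by linarith
    exact (Nat.eq_of_mul_eq_mul_right (by omega) h8).symm
  rw [h7]

theorem count (p : ℕ) (hp : 0 < p) (δ : ℝ) (Q : Finset (ℕ × ℕ)) (t : ℝ) (ht : 0 ≤ t) :
    ∑ x ∈ SS p δ, (if gg p x ∈ Q then t else 0) ≤ t * (Q.card : ℝ) := by
  rw [← Finset.sum_filter, Finset.sum_const, nsmul_eq_mul, mul_comm]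
  apply mul_le_mul_of_nonneg_left _ ht
  have : ((SS p δ).filter (fun x => gg p x ∈ Q)).card ≤ Q.card := by
    apply Finset.card_le_card_of_injOn (gg p)
    · intro x hx
      rw [Finset.mem_coe, Finset.mem_filter] at hx
      exact hx.2
    · intro x hx y hy h
      rw [Finset.mem_coe, Finset.mem_filter] at hx hy
      exact gg_inj p hp δ (Finset.mem_coe.2 hx.1) (Finset.mem_coe.2 hy.1) h
  exact_mod_cast this

/-- the data of one pair. -/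
theorem pair (p : ℕ) (hp3 : 3 ≤ p) (δ : ℝ) (x : Σ _ : ℕ, ℕ) (hx : x ∈ SS p δ) (a b L : ℕ)
    (ha : a < (gg p x).1) (hb : (gg p x).1 ≤ b) (hL : x.2 ≤ L) : gg p x ∈ Pr p a b L := by
  obtain ⟨h1, h2, h3, h4, h5, _⟩ := mem_SS p δ x hx
  unfold Pr
  rw [Finset.mem_filter, Finset.mem_product, Finset.mem_Ioc, Finset.mem_Ioc]
  refine ⟨⟨⟨ha, hb⟩, h5, hL⟩, h3, ?_⟩
  unfold gg
  simp only
  rw [Nat.div_mul_cancel h4]
  have : 2 * x.1 * p + 1 = 1 + (2 * p) * x.1 := by ring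
  rw [this]
  unfold Nat.ModEq
  simp

theorem key (p : ℕ) (hp3 : 3 ≤ p) (δ ρ : ℝ) (hδ : 0 < δ) (hρ : 1 < ρ) (J : ℕ)
    (x : Σ _ : ℕ, ℕ) (hx : x ∈ SS p δ) :
    Real.log x.2 ≤ ∑ j ∈ range J, (if gg p x ∈ Pr p ⌊2 * (p : ℝ) / ρ ^ (j + 1)⌋₊
        ⌊2 * (p : ℝ) / ρ ^ j⌋₊ ⌊2 * (p : ℝ) * ρ ^ (j + 1)⌋₊ then
          Real.log (2 * p * ρ ^ (j + 1)) else 0) +
      (if gg p x ∈ Pr p 0 ⌊2 * (p : ℝ) / ρ ^ J⌋₊ ⌊(p : ℝ) ^ (1 + δ)⌋₊ then
        (1 + δ) * Real.log p else 0) := by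
  obtain ⟨h1, h2, h3, h4, h5, h6⟩ := mem_SS p δ x hx
  have hp0 : (0 : ℝ) < p := by exact_mod_cast (by omega : 0 < p)
  have hp1 : (1 : ℝ) ≤ p := by exact_mod_cast (by omega : 1 ≤ p)
  have hρ0 : 0 < ρ := by linarith
  have hpow : ∀ j : ℕ, 1 ≤ ρ ^ j := fun j => one_le_pow₀ hρ.le
  have hc : ∀ j : ℕ, 0 ≤ Real.log (2 * p * ρ ^ (j + 1)) := by
    intro j
    apply Real.log_nonneg
    nlinarith [hpow (j + 1)]
  have hcl : 0 ≤ (1 + δ) * Real.log p := mul_nonneg (by linarith) (Real.log_nonneg hp1)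
  have hl0 : 0 < x.2 := h3.pos
  have hl0' : (0 : ℝ) < x.2 := by exact_mod_cast hl0
  obtain ⟨m, hm⟩ : ∃ m, m = (gg p x).1 := ⟨_, rfl⟩
  have hml : m * x.2 = 2 * x.1 * p + 1 := by
    rw [hm]; exact Nat.div_mul_cancel h4
  have hm0 : 0 < m := by
    rcases Nat.eq_zero_or_pos m with h | h
    · rw [h] at hml; omega
    · exact h
  have hlt : m * x.2 < 2 * p * (2 * p) := by
    rw [hml]
    obtain ⟨q, hq⟩ : ∃ q, p = q + 1 := ⟨p - 1, by omega⟩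
    subst hq
    have : x.1 ≤ 2 * q + 1 := by omega
    nlinarith
  have hm2p : m < 2 * p := by
    by_contra hcon
    push Not at hcon
    have : 2 * p * (2 * p) ≤ m * x.2 := Nat.mul_le_mul hcon h5.le
    omega
  have hltR : (m : ℝ) * x.2 < 2 * p * (2 * p) := by exact_mod_cast hlt
  have hm0R : (0 : ℝ) < m := by exact_mod_cast hm0
  have hnn : ∀ j ∈ range J, 0 ≤ (if gg p x ∈ Pr p ⌊2 * (p : ℝ) / ρ ^ (j + 1)⌋₊
        ⌊2 * (p : ℝ) / ρ ^ j⌋₊ ⌊2 * (p : ℝ) * ρ ^ (j + 1)⌋₊ then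
          Real.log (2 * p * ρ ^ (j + 1)) else 0) := by
    intro j _
    split_ifs
    · exact hc j
    · exact le_rfl
  by_cases hcase : m ≤ ⌊2 * (p : ℝ) / ρ ^ J⌋₊
  · -- the last set
    have hmem : gg p x ∈ Pr p 0 ⌊2 * (p : ℝ) / ρ ^ J⌋₊ ⌊(p : ℝ) ^ (1 + δ)⌋₊ := by
      apply pair p hp3 δ x hx
      · rw [← hm]; exact hm0
      · rw [← hm]; exact hcase
      · exact Nat.le_floor h6
    rw [if_pos hmem]
    have hlog : Real.log x.2 ≤ (1 + δ) * Real.log p := by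
      rw [← Real.log_rpow hp0]
      exact Real.log_le_log hl0' h6
    have := Finset.sum_nonneg hnn
    linarith
  · -- one of the blocks
    push Not at hcase
    have hex : ∃ i : ℕ, ⌊2 * (p : ℝ) / ρ ^ i⌋₊ < m := ⟨J, hcase⟩
    classical
    obtain ⟨i, hi⟩ : ∃ i, i = Nat.find hex := ⟨_, rfl⟩
    have hi1 : ⌊2 * (p : ℝ) / ρ ^ i⌋₊ < m := by rw [hi]; exact Nat.find_spec hex
    have hi2 : i ≤ J := by rw [hi]; exact Nat.find_min' hex hcase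
    have hi0 : i ≠ 0 := by
      intro h0
      rw [h0, pow_zero, div_one] at hi1
      have : ⌊2 * (p : ℝ)⌋₊ = 2 * p := by
        have : (2 * (p : ℝ)) = ((2 * p : ℕ) : ℝ) := by push_cast; ring
        rw [this, Nat.floor_natCast]
      omega
    obtain ⟨j, rfl⟩ : ∃ j, i = j + 1 := ⟨i - 1, by omega⟩
    have hj : m ≤ ⌊2 * (p : ℝ) / ρ ^ j⌋₊ := by
      by_contra hcon
      push Not at hcon
      have := Nat.find_min' hex hcon
      omega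
    have hlow : 2 * (p : ℝ) / ρ ^ (j + 1) < m := by
      exact (Nat.floor_lt' hm0.ne').1 hi1
    have hρj : 0 < ρ ^ (j + 1) := pow_pos hρ0 _
    have hl : (x.2 : ℝ) < 2 * p * ρ ^ (j + 1) := by
      rw [div_lt_iff₀ hρj] at hlow
      -- m l < 4 p^2 < 2p m ρ^(j+1)
      have : (m : ℝ) * x.2 < m * (2 * p * ρ ^ (j + 1)) := by
        calc (m : ℝ) * x.2 < 2 * p * (2 * p) := hltR
          _ ≤ 2 * p * (m * ρ ^ (j + 1)) := by
            apply mul_le_mul_of_nonneg_left hlow.le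
            positivity
          _ = m * (2 * p * ρ ^ (j + 1)) := by ring
      exact lt_of_mul_lt_mul_left this hm0R.le
    have hmem : gg p x ∈ Pr p ⌊2 * (p : ℝ) / ρ ^ (j + 1)⌋₊
        ⌊2 * (p : ℝ) / ρ ^ j⌋₊ ⌊2 * (p : ℝ) * ρ ^ (j + 1)⌋₊ := by
      apply pair p hp3 δ x hx
      · rw [← hm]; exact hi1
      · rw [← hm]; exact hj
      · exact Nat.le_floor hl.le
    have hjJ : j ∈ range J := by rw [Finset.mem_range]; omega
    have h7 := Finset.single_le_sum hnn hjJ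
    rw [if_pos hmem] at h7
    have h8 : Real.log x.2 ≤ Real.log (2 * p * ρ ^ (j + 1)) := Real.log_le_log hl0' hl.le
    have h9 : 0 ≤ (if gg p x ∈ Pr p 0 ⌊2 * (p : ℝ) / ρ ^ J⌋₊ ⌊(p : ℝ) ^ (1 + δ)⌋₊ then
        (1 + δ) * Real.log p else 0) := by
      split_ifs
      · exact hcl
      · exact le_rfl
    linarith

theorem t_BLOCKS : BLOCKS := by
  intro p δ ρ J _ hp3 hδ hρ _
  have hp : 0 < p := by omega
  have hp0 : (0 : ℝ) < p := by exact_mod_cast hp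
  have hp1 : (1 : ℝ) ≤ p := by exact_mod_cast (by omega : 1 ≤ p)
  have hc : ∀ j : ℕ, 0 ≤ Real.log (2 * p * ρ ^ (j + 1)) := by
    intro j
    apply Real.log_nonneg
    nlinarith [one_le_pow₀ hρ.le (n := j + 1)]
  have hcl : 0 ≤ (1 + δ) * Real.log p := mul_nonneg (by linarith) (Real.log_nonneg hp1)
  have hL : ∑ k ∈ Bd p δ, ∑ l ∈ (2 * k * p + 1).primeFactors.filter (fun l => 2 * p < l),
      Real.log l = ∑ x ∈ SS p δ, Real.log x.2 := by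
    unfold SS
    rw [Finset.sum_sigma]
  rw [hL]
  calc ∑ x ∈ SS p δ, Real.log x.2 ≤ ∑ x ∈ SS p δ, (∑ j ∈ range J,
        (if gg p x ∈ Pr p ⌊2 * (p : ℝ) / ρ ^ (j + 1)⌋₊
        ⌊2 * (p : ℝ) / ρ ^ j⌋₊ ⌊2 * (p : ℝ) * ρ ^ (j + 1)⌋₊ then
          Real.log (2 * p * ρ ^ (j + 1)) else 0) +
      (if gg p x ∈ Pr p 0 ⌊2 * (p : ℝ) / ρ ^ J⌋₊ ⌊(p : ℝ) ^ (1 + δ)⌋₊ then
        (1 + δ) * Real.log p else 0)) :=
        Finset.sum_le_sum fun x hx => key p hp3 δ ρ hδ hρ J x hx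
    _ = ∑ j ∈ range J, ∑ x ∈ SS p δ,
        (if gg p x ∈ Pr p ⌊2 * (p : ℝ) / ρ ^ (j + 1)⌋₊
        ⌊2 * (p : ℝ) / ρ ^ j⌋₊ ⌊2 * (p : ℝ) * ρ ^ (j + 1)⌋₊ then
          Real.log (2 * p * ρ ^ (j + 1)) else 0) +
      ∑ x ∈ SS p δ, (if gg p x ∈ Pr p 0 ⌊2 * (p : ℝ) / ρ ^ J⌋₊ ⌊(p : ℝ) ^ (1 + δ)⌋₊ then
        (1 + δ) * Real.log p else 0) := by
        rw [Finset.sum_add_distrib, Finset.sum_comm]
    _ ≤ _ := by
        apply add_le_add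
        · exact Finset.sum_le_sum fun j _ => count p hp δ _ _ (hc j)
        · exact count p hp δ _ _ hcl

end Pool.Agent.K3h67.LP
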